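import Pool.Agent.X17.HL.Single

/-!
# Homogeneous latin squares and sums of divisors

A latin square of order `n` is `h`-homogeneous if every cell lies in exactly `h` intercalates. For
odd `b` the values `h = x + y + z`, `x + y` (unless `x = y = b`) and `x` (`b > 1`), with divisors
`x, y, z` of `b`, are attained for the order `n = 4 b`; more generally every system of quadratic
forms over the field with two elements gives a value for orders `2^e ∏ b_k`.
-/

set_option autoImplicit false

open Finset

namespace Pool.Agent.Results.MP_3713ea_co.SumsOfDivisors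

/-- latin squares: the rows and the columns have pairwise distinct entries -/
def IsLatin {n : ℕ} (L : Fin n → Fin n → Fin n) : Prop :=
  (∀ r, Function.Injective (L r)) ∧ ∀ c, Function.Injective fun r => L r c

/-- the intercalates through the cell `(r, c)`, each given by its opposite corner `(r', c')` -/
def intercalatesAt {n : ℕ} (L : Fin n → Fin n → Fin n) (r c : Fin n) : Finset (Fin n × Fin n) :=
  univ.filter fun p => p.1 ≠ r ∧ p.2 ≠ c ∧ L r c = L p.1 p.2 ∧ L r p.2 = L p.1 c

/-- every cell of `L` lies in exactly `h` intercalates -/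
def IsHomogeneous {n : ℕ} (h : ℕ) (L : Fin n → Fin n → Fin n) : Prop :=
  ∀ r c, (intercalatesAt L r c).card = h

/-- there is an `h`-homogeneous latin square of order `n` -/
def Attained (n h : ℕ) : Prop :=
  ∃ L : Fin n → Fin n → Fin n, IsLatin L ∧ IsHomogeneous h L

/-- the value at `d` of the quadratic form with matrix `M` -/
def quadValue {e : ℕ} (M : Matrix (Fin e) (Fin e) (ZMod 2)) (d : Fin e → ZMod 2) : ZMod 2 :=
  ∑ i, ∑ j, M i j * d i * d j

theorem attained_of_att {n h : ℕ} (H : Pool.Agent.X17.HL.Att n (h + 1)) : Attained n h := by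
  obtain ⟨L, h1, h2⟩ := Pool.Agent.X17.HL.fin_of_att H
  exact ⟨L, h1, h2⟩

/-- (1) For odd `b` and all divisors `x, y, z` of `b` there is an `(x + y + z)`-homogeneous latin
square of order `4 b`. (2) For odd `b` and divisors `x, y` of `b`, not both equal to `b`, there is an
`(x + y)`-homogeneous latin square of order `4 b`. (3) For odd `b > 1` and every divisor `x` of `b`
there is an `x`-homogeneous latin square of order `4 b`. (4) For quadratic forms `Q_k` on `F_2^e`,
odd numbers `b_k` and a set `S` of indices `k` with `b_k > 1` there is an `h`-homogeneous latin square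
of order `2^e ∏ b_k`, where `h` is the sum over `d ≠ 0` in `F_2^e` of the products of the numbers `b_k`
with `Q_k(d) = 1`, and only those `d` are counted for which `Q_k(d) = 0` for all `k ∈ S`. -/
theorem result :
    (∀ b x y z : ℕ, Odd b → x ∣ b → y ∣ b → z ∣ b → Attained (4 * b) (x + y + z)) ∧
    (∀ b x y : ℕ, Odd b → x ∣ b → y ∣ b → ¬(x = b ∧ y = b) → Attained (4 * b) (x + y)) ∧
    (∀ b x : ℕ, Odd b → 1 < b → x ∣ b → Attained (4 * b) x) ∧
    (∀ (e K : ℕ) (M : Fin K → Matrix (Fin e) (Fin e) (ZMod 2)) (b : Fin K → ℕ)
      (S : Finset (Fin K)), (∀ k, Odd (b k)) → (∀ k ∈ S, 1 < b k) →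
      Attained (2 ^ e * ∏ k, b k)
        (∑ d ∈ univ.filter (fun d : Fin e → ZMod 2 => d ≠ 0),
          ∏ k, if quadValue (M k) d = 0 then 1 else if k ∈ S then 0 else b k)) :=
  ⟨fun _ _ _ _ hb hx hy hz => attained_of_att (Pool.Agent.X17.HL.att_three hb hx hy hz),
    fun _ _ _ hb hx hy h => attained_of_att (Pool.Agent.X17.HL.att_two hb hx hy h),
    fun _ _ hb hb1 hx => attained_of_att (Pool.Agent.X17.HL.att_single hb hb1 hx),
    fun e _ M b S hb hS => attained_of_att (Pool.Agent.X17.HL.att_quad e M b S hb hS)⟩

end Pool.Agent.Results.MP_3713ea_co.SumsOfDivisors
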